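import Pool.Agent.H23.ARZ.Stmts

set_option autoImplicit false

open MeasureTheory Set Filter Topology Complex

namespace Pool.ARZ

theorem EID_hom (σ t : ℝ) (w : V) :
    P σ (exp ((1 : ℂ) * t) * w.1, exp ((1 : ℂ) * t) * w.2.1, exp ((1 : ℂ) * t) * w.2.2) *
      hh (exp ((1 : ℂ) * t) * w.1, exp ((1 : ℂ) * t) * w.2.1, exp ((1 : ℂ) * t) * w.2.2)
      = Real.exp (24 * σ * t) * (P σ w * hh w) := by
  have hn : ‖exp ((1 : ℂ) * t)‖ = Real.exp t := by
    rw [one_mul, Complex.norm_exp]; simp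
  have hp : ∀ (u : ℂ) (α : ℝ), ‖exp ((1 : ℂ) * t) * u‖ ^ α = Real.exp (α * t) * ‖u‖ ^ α := by
    intro u α
    rw [norm_mul, hn, Real.mul_rpow (Real.exp_pos t).le (norm_nonneg _), ← Real.exp_mul, mul_comm t]
  have h1 : hh (exp ((1 : ℂ) * t) * w.1, exp ((1 : ℂ) * t) * w.2.1, exp ((1 : ℂ) * t) * w.2.2) =
      hh w := by
    unfold hh
    rw [mul_div_mul_left _ _ (exp_ne_zero _)]
  rw [h1]
  unfold P
  simp only
  rw [← mul_sub, ← mul_sub, hp, hp, hp, hp, hp]
  have h2 : Real.exp (24 * σ * t) = Real.exp (10 * σ * t) * Real.exp (6 * σ * t) *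
      Real.exp (4 * σ * t) * Real.exp (2 * σ * t) * Real.exp (2 * σ * t) := by
    rw [← Real.exp_add, ← Real.exp_add, ← Real.exp_add, ← Real.exp_add]
    congr 1; ring
  rw [h2]
  ring

theorem sEid (hDil : SDil) (hCon : SCon) : SEid := by
  intro σ hσ φ hφ hφc
  have hQ : Continuous (fun w : V => P σ w * hh w) := (hCon σ hσ).2.1
  have h := hDil 1 1 1 (24 * σ) (fun w => P σ w * hh w) hQ (fun t w => EID_hom σ t w) φ hφ hφc
  have hcφ : Continuous φ := hφ.continuous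
  have hDcont : Continuous (fun w : V => DD φ w w) := by
    unfold DD
    exact (hφ.continuous_fderiv one_ne_zero).clm_apply continuous_id
  have hDsupp : HasCompactSupport (fun w : V => DD φ w w) := by
    apply (hφc.fderiv (𝕜 := ℝ)).mono
    intro w hw hw0
    apply hw
    simp only [DD]
    rw [hw0]; rfl
  have hQc : Continuous (fun w : V => ((P σ w * hh w : ℝ) : ℂ)) := continuous_ofReal.comp hQ
  have i1 : Integrable (fun w : V => ((P σ w * hh w : ℝ) : ℂ) * DD φ w w) :=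
    (hQc.mul hDcont).integrable_of_hasCompactSupport hDsupp.mul_left
  have i2 : Integrable (fun w : V => ((P σ w * hh w : ℝ) : ℂ) * φ w) :=
    (hQc.mul hcφ).integrable_of_hasCompactSupport hφc.mul_left
  have e : (fun w : V => ((P σ w * hh w : ℝ) : ℂ) * (DD φ w ((1 : ℂ) * w.1, (1 : ℂ) * w.2.1, (1 : ℂ) * w.2.2)
      + ((24 * σ + 2 * ((1 : ℂ) + 1 + 1).re : ℝ) : ℂ) * φ w)) =
      fun w : V => ((P σ w * hh w : ℝ) : ℂ) * DD φ w w +
        ((24 * σ + 6 : ℝ) : ℂ) * (((P σ w * hh w : ℝ) : ℂ) * φ w) := by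
    funext w
    have h1 : (2 * ((1 : ℂ) + 1 + 1).re : ℝ) = 6 := by simp; norm_num
    rw [h1, one_mul, one_mul, one_mul]
    ring
  rw [e, integral_add i1 (i2.const_mul _), integral_const_mul] at h
  rw [eq_neg_iff_add_eq_zero, add_comm]
  exact h

end Pool.ARZ
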