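import Pool.Agent.H23.ARZ.Stmts

set_option autoImplicit false

open MeasureTheory Set Filter Topology Complex

namespace Pool.ARZ

/-- the weight `Q` -/
noncomputable def KID_Q (σ : ℝ) (w : V) : ℝ :=
  ‖w.1‖ ^ (10 * σ) * ‖w.2.1‖ ^ (4 * σ) * ‖w.2.1 - w.2.2‖ ^ (2 * σ) * ‖w.2.2‖ ^ (2 * σ - 2)

/-- `|x-z|^{6σ}` -/
noncomputable def KID_r (σ : ℝ) (w : V) : ℝ := ‖w.1 - w.2.2‖ ^ (6 * σ)

/-- `(x-z) conj z` -/
noncomputable def KID_A (w : V) : ℂ := (w.1 - w.2.2) * (starRingEnd ℂ) w.2.2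

/-- the projection `x` -/
noncomputable def KID_X : V →L[ℝ] ℂ := ContinuousLinearMap.fst ℝ ℂ (ℂ × ℂ)

/-- the projection `z` -/
noncomputable def KID_Z : V →L[ℝ] ℂ :=
  (ContinuousLinearMap.snd ℝ ℂ ℂ).comp (ContinuousLinearMap.snd ℝ ℂ (ℂ × ℂ))

theorem KID_X_apply (w : V) : KID_X w = w.1 := rfl

theorem KID_Z_apply (w : V) : KID_Z w = w.2.2 := rfl

theorem KID_Q_cont {σ : ℝ} (hσ : 1 < σ) : Continuous (KID_Q σ) := by
  unfold KID_Q
  have hx : Continuous (fun w : V => w.1) := continuous_fst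
  have hy : Continuous (fun w : V => w.2.1) := continuous_fst.comp continuous_snd
  have hz : Continuous (fun w : V => w.2.2) := continuous_snd.comp continuous_snd
  exact (((hx.norm.rpow_const fun w => Or.inr (by linarith)).mul
    (hy.norm.rpow_const fun w => Or.inr (by linarith))).mul
    ((hy.sub hz).norm.rpow_const fun w => Or.inr (by linarith))).mul
    (hz.norm.rpow_const fun w => Or.inr (by linarith))

theorem KID_r_smooth {σ : ℝ} (hσ : 1 < σ) : ContDiff ℝ 1 (KID_r σ) := by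
  have h : KID_r σ = (fun u : ℂ => ‖u‖ ^ (6 * σ)) ∘ (KID_X - KID_Z) := by
    funext w; rfl
  rw [h]
  exact (contDiff_norm_rpow (by linarith)).comp (KID_X - KID_Z).contDiff

theorem KID_A_smooth : ContDiff ℝ 1 KID_A := by
  have h : KID_A = fun w => (KID_X - KID_Z) w * (conjCLE.toContinuousLinearMap.comp KID_Z) w := by
    funext w; rfl
  rw [h]
  exact (KID_X - KID_Z).contDiff.mul (conjCLE.toContinuousLinearMap.comp KID_Z).contDiff

/-- derivative of the product of a real function and a complex function -/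
theorem KID_DD_mul {ρ : V → ℝ} {φ : V → ℂ} (hρ : ContDiff ℝ 1 ρ) (hφ : ContDiff ℝ 1 φ) (w d : V) :
    DD (fun w => ((ρ w : ℝ) : ℂ) * φ w) w d =
      ((fderiv ℝ ρ w d : ℝ) : ℂ) * φ w + ((ρ w : ℝ) : ℂ) * DD φ w d := by
  unfold DD
  have h1 : HasFDerivAt ρ (fderiv ℝ ρ w) w :=
    (hρ.differentiable one_ne_zero).differentiableAt.hasFDerivAt
  have h2 : HasFDerivAt φ (fderiv ℝ φ w) w :=
    (hφ.differentiable one_ne_zero).differentiableAt.hasFDerivAt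
  have h3 : HasFDerivAt (fun w => ((ρ w : ℝ) : ℂ)) (ofRealCLM.comp (fderiv ℝ ρ w)) w :=
    (ofRealCLM.hasFDerivAt (x := ρ w)).comp w h1
  have h4 := h3.mul h2
  have h5 := h4.fderiv
  have h6 : fderiv ℝ (fun w => ((ρ w : ℝ) : ℂ) * φ w) w d =
      (((ρ w : ℝ) : ℂ) • fderiv ℝ φ w + φ w • (ofRealCLM.comp (fderiv ℝ ρ w))) d := by
    rw [← h5]; rfl
  rw [h6]
  simp only [add_apply, smul_apply,
    ContinuousLinearMap.comp_apply, ofRealCLM_apply, smul_eq_mul]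
  ring

/-- derivative of `r` -/
theorem KID_r_deriv {σ : ℝ} (hσ : 1 < σ) (w : V) (c : ℂ) :
    fderiv ℝ (KID_r σ) w (c, 0, 0) = 6 * σ * ‖w.1 - w.2.2‖ ^ (6 * σ - 2) *
      (c * (starRingEnd ℂ) (w.1 - w.2.2)).re := by
  have h : KID_r σ = (fun u : ℂ => ‖u‖ ^ (6 * σ)) ∘ (KID_X - KID_Z) := by
    funext w; rfl
  have h1 := (hasFDerivAt_norm_rpow ((KID_X - KID_Z) w) (p := 6 * σ) (by linarith)).comp w
    (KID_X - KID_Z).hasFDerivAt
  rw [h, h1.fderiv]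
  simp only [ContinuousLinearMap.comp_apply, smul_apply, innerSL_apply_apply,
    smul_eq_mul, sub_apply, KID_X_apply, KID_Z_apply, sub_zero]
  rw [Complex.inner]

/-- derivative of `Re A` and `Im A` -/
theorem KID_A_deriv (w : V) (c : ℂ) :
    fderiv ℝ (fun w => (KID_A w).re) w (c, 0, 0) = (c * (starRingEnd ℂ) w.2.2).re ∧
    fderiv ℝ (fun w => (KID_A w).im) w (c, 0, 0) = (c * (starRingEnd ℂ) w.2.2).im := by
  have h : KID_A = fun w => (KID_X - KID_Z) w * (conjCLE.toContinuousLinearMap.comp KID_Z) w := by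
    funext w; rfl
  have h1 : HasFDerivAt KID_A (((KID_X - KID_Z) w) • (conjCLE.toContinuousLinearMap.comp KID_Z) +
      ((conjCLE.toContinuousLinearMap.comp KID_Z) w) • (KID_X - KID_Z)) w := by
    rw [h]
    exact (KID_X - KID_Z).hasFDerivAt.mul (conjCLE.toContinuousLinearMap.comp KID_Z).hasFDerivAt
  have h2 := (reCLM.hasFDerivAt (x := KID_A w)).comp w h1
  have h3 := (imCLM.hasFDerivAt (x := KID_A w)).comp w h1
  have e : ((((KID_X - KID_Z) w) • (conjCLE.toContinuousLinearMap.comp KID_Z) +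
      ((conjCLE.toContinuousLinearMap.comp KID_Z) w) • (KID_X - KID_Z)) : V →L[ℝ] ℂ) (c, 0, 0) =
      c * (starRingEnd ℂ) w.2.2 := by
    have hc : (conjCLE.toContinuousLinearMap.comp KID_Z) w = (starRingEnd ℂ) w.2.2 := rfl
    have hc2 : (conjCLE.toContinuousLinearMap.comp KID_Z) ((c, 0, 0) : V) = 0 := by
      show (starRingEnd ℂ) (0 : ℂ) = 0
      exact map_zero _
    simp only [add_apply, smul_apply, hc, hc2,
      sub_apply, KID_X_apply, KID_Z_apply, sub_zero, smul_eq_mul, mul_zero,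
      zero_add]
    ring
  constructor
  · have h4 : fderiv ℝ (fun w => (KID_A w).re) w = _ := h2.fderiv
    rw [h4, ContinuousLinearMap.comp_apply, e]
    rfl
  · have h4 : fderiv ℝ (fun w => (KID_A w).im) w = _ := h3.fderiv
    rw [h4, ContinuousLinearMap.comp_apply, e]
    rfl

theorem KID_rpow_two {n : ℝ} (hn : 0 ≤ n) {a : ℝ} (ha : 2 < a) :
    n ^ (a - 2) * n ^ 2 = n ^ a := by
  rcases hn.eq_or_lt with h | h
  · rw [← h, Real.zero_rpow (by linarith), Real.zero_rpow (by linarith)]; ring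
  · have : n ^ (2 : ℕ) = n ^ (2 : ℝ) := by norm_cast
    rw [this, ← Real.rpow_add h]
    congr 1; ring

theorem KID_P {σ : ℝ} (hσ : 1 < σ) (w : V) :
    P σ w = KID_Q σ w * KID_r σ w * ‖w.2.2‖ ^ 2 := by
  unfold P KID_Q KID_r
  rw [← KID_rpow_two (norm_nonneg w.2.2) (a := 2 * σ) (by linarith)]
  ring

theorem KID_norm_sq (u : ℂ) : ((‖u‖ ^ 2 : ℝ) : ℂ) = u * (starRingEnd ℂ) u := by
  rw [Complex.mul_conj, Complex.normSq_eq_norm_sq]

theorem KID_P3 {σ : ℝ} (hσ : 1 < σ) (w : V) :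
    ((P σ w : ℝ) : ℂ) * (w.1 * (w.1 - w.2.2) / w.2.2) =
      ((KID_Q σ w * KID_r σ w : ℝ) : ℂ) * (KID_A w * w.1) := by
  rw [KID_P hσ, ofReal_mul, KID_norm_sq]
  unfold KID_A
  by_cases hz : w.2.2 = 0
  · rw [hz]; simp
  · field_simp

theorem KID_P2 {σ : ℝ} (hσ : 1 < σ) (w : V) :
    P σ w * hh w = KID_Q σ w * KID_r σ w * (w.1 * (starRingEnd ℂ) w.2.2).re := by
  have h : ((P σ w : ℝ) : ℂ) * (w.1 / w.2.2) =
      ((KID_Q σ w * KID_r σ w : ℝ) : ℂ) * (w.1 * (starRingEnd ℂ) w.2.2) := by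
    rw [KID_P hσ, ofReal_mul, KID_norm_sq]
    by_cases hz : w.2.2 = 0
    · rw [hz]; simp
    · field_simp
  have h2 := congrArg Complex.re h
  rw [re_ofReal_mul, re_ofReal_mul] at h2
  exact h2

theorem KID_re_A (w : V) :
    (KID_A w).re = (w.1 * (starRingEnd ℂ) w.2.2).re - ‖w.2.2‖ ^ 2 := by
  unfold KID_A
  rw [sub_mul, sub_re]
  congr 1
  have := congrArg Complex.re (KID_norm_sq w.2.2)
  rw [ofReal_re] at this
  exact this.symm

/-- the coefficient identity -/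
theorem KID_coef {σ : ℝ} (hσ : 1 < σ) (w : V) :
    fderiv ℝ (KID_r σ) w (w.1, 0, 0) * (KID_A w).re +
      fderiv ℝ (KID_r σ) w (I * w.1, 0, 0) * (KID_A w).im =
      6 * σ * KID_r σ w * (w.1 * (starRingEnd ℂ) w.2.2).re := by
  rw [KID_r_deriv hσ, KID_r_deriv hσ]
  have h1 : (I * w.1 * (starRingEnd ℂ) (w.1 - w.2.2)).re =
      -(w.1 * (starRingEnd ℂ) (w.1 - w.2.2)).im := by
    rw [mul_assoc, I_mul_re]
  rw [h1]
  have h2 : (w.1 * (starRingEnd ℂ) (w.1 - w.2.2)) * KID_A w =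
      ((‖w.1 - w.2.2‖ ^ 2 : ℝ) : ℂ) * (w.1 * (starRingEnd ℂ) w.2.2) := by
    rw [KID_norm_sq]; unfold KID_A; ring
  have h3 := congrArg Complex.re h2
  rw [re_ofReal_mul, mul_re] at h3
  have h4 : KID_r σ w = ‖w.1 - w.2.2‖ ^ (6 * σ - 2) * ‖w.1 - w.2.2‖ ^ 2 := by
    unfold KID_r
    rw [KID_rpow_two (norm_nonneg _) (by linarith)]
  rw [h4]
  linear_combination 6 * σ * ‖w.1 - w.2.2‖ ^ (6 * σ - 2) * h3

theorem KID_fderiv_mul {f g : V → ℝ} (hf : ContDiff ℝ 1 f) (hg : ContDiff ℝ 1 g) (w d : V) :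
    fderiv ℝ (fun w => f w * g w) w d = fderiv ℝ f w d * g w + f w * fderiv ℝ g w d := by
  have h1 : HasFDerivAt f (fderiv ℝ f w) w :=
    (hf.differentiable one_ne_zero).differentiableAt.hasFDerivAt
  have h2 : HasFDerivAt g (fderiv ℝ g w) w :=
    (hg.differentiable one_ne_zero).differentiableAt.hasFDerivAt
  have h3 : fderiv ℝ (fun w => f w * g w) w = _ := (h1.mul h2).fderiv
  rw [h3]
  simp only [add_apply, smul_apply, smul_eq_mul]
  ring

theorem KID_re_smooth : ContDiff ℝ 1 (fun w => (KID_A w).re) :=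
  reCLM.contDiff.comp KID_A_smooth

theorem KID_im_smooth : ContDiff ℝ 1 (fun w => (KID_A w).im) :=
  imCLM.contDiff.comp KID_A_smooth

theorem KID_lin (φ : V → ℂ) (w : V) (a b : ℝ) (c d : ℂ) :
    ((a : ℝ) : ℂ) * DD φ w (c, 0, 0) + ((b : ℝ) : ℂ) * DD φ w (d, 0, 0) =
      DD φ w ((a : ℂ) * c + (b : ℂ) * d, 0, 0) := by
  unfold DD
  have h : (((a : ℂ) * c + (b : ℂ) * d, 0, 0) : V) = a • ((c, 0, 0) : V) + b • ((d, 0, 0) : V) := by
    simp
  rw [h, map_add, map_smul, map_smul, Complex.real_smul, Complex.real_smul]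

/-- the pointwise identity -/
theorem KID_point {σ : ℝ} (hσ : 1 < σ) {φ : V → ℂ} (hφ : ContDiff ℝ 1 φ) (w : V) :
    ((KID_Q σ w : ℝ) : ℂ) * (DD (fun w => ((KID_r σ w * (KID_A w).re : ℝ) : ℂ) * φ w) w (w.1, 0, 0)
        + ((10 * σ + 2 : ℝ) : ℂ) * (((KID_r σ w * (KID_A w).re : ℝ) : ℂ) * φ w)) +
    ((KID_Q σ w : ℝ) : ℂ) * DD (fun w => ((KID_r σ w * (KID_A w).im : ℝ) : ℂ) * φ w) w
      (I * w.1, 0, 0) =
    -(((10 * σ + 2 : ℝ) : ℂ) * (((P σ w : ℝ) : ℂ) * φ w)) +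
      ((16 * σ + 4 : ℝ) : ℂ) * (((P σ w * hh w : ℝ) : ℂ) * φ w) +
      ((P σ w : ℝ) : ℂ) * DD φ w (w.1 * (w.1 - w.2.2) / w.2.2, 0, 0) := by
  rw [KID_DD_mul ((KID_r_smooth hσ).mul KID_re_smooth) hφ,
    KID_DD_mul ((KID_r_smooth hσ).mul KID_im_smooth) hφ,
    KID_fderiv_mul (KID_r_smooth hσ) KID_re_smooth, KID_fderiv_mul (KID_r_smooth hσ) KID_im_smooth,
    (KID_A_deriv w w.1).1, (KID_A_deriv w (I * w.1)).2]
  have h1 : (I * w.1 * (starRingEnd ℂ) w.2.2).im = (w.1 * (starRingEnd ℂ) w.2.2).re := by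
    rw [mul_assoc, I_mul_im]
  rw [h1]
  have h2 := KID_coef hσ w
  -- the derivative terms
  have h3 : ((P σ w : ℝ) : ℂ) * DD φ w (w.1 * (w.1 - w.2.2) / w.2.2, 0, 0) =
      ((KID_Q σ w * (KID_r σ w * (KID_A w).re) : ℝ) : ℂ) * DD φ w (w.1, 0, 0) +
      ((KID_Q σ w * (KID_r σ w * (KID_A w).im) : ℝ) : ℂ) * DD φ w (I * w.1, 0, 0) := by
    have h4 := KID_lin φ w (P σ w) 0 (w.1 * (w.1 - w.2.2) / w.2.2) 0
    rw [ofReal_zero, zero_mul, zero_mul, add_zero, add_zero] at h4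
    rw [h4, KID_lin, KID_P3 hσ]
    congr 2
    have h5 : KID_A w = ((KID_A w).re : ℂ) + ((KID_A w).im : ℂ) * I := (re_add_im _).symm
    conv_lhs => rw [h5]
    push_cast
    ring
  rw [h3, KID_P2 hσ, KID_P hσ]
  have h6 : ((fderiv ℝ (KID_r σ) w (w.1, 0, 0) * (KID_A w).re : ℝ) : ℂ) +
      ((fderiv ℝ (KID_r σ) w (I * w.1, 0, 0) * (KID_A w).im : ℝ) : ℂ) =
      ((6 * σ * KID_r σ w * (w.1 * (starRingEnd ℂ) w.2.2).re : ℝ) : ℂ) := by
    rw [← h2]; push_cast; ring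
  have h7 : (((KID_A w).re : ℝ) : ℂ) =
      (((w.1 * (starRingEnd ℂ) w.2.2).re - ‖w.2.2‖ ^ 2 : ℝ) : ℂ) := by rw [KID_re_A]
  push_cast at h6 h7 ⊢
  linear_combination ((KID_Q σ w : ℝ) : ℂ) * φ w * h6 +
    ((KID_Q σ w : ℝ) : ℂ) * (10 * (σ : ℂ) + 2) * ((KID_r σ w : ℝ) : ℂ) * φ w * h7

/-- homogeneity of `Q` in the first coordinate -/
theorem KID_hom (σ t : ℝ) (a : ℂ) (w : V) :
    KID_Q σ (exp (a * t) * w.1, exp ((0 : ℂ) * t) * w.2.1, exp ((0 : ℂ) * t) * w.2.2) =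
      Real.exp (10 * σ * a.re * t) * KID_Q σ w := by
  unfold KID_Q
  simp only [zero_mul, exp_zero, one_mul]
  have hn : ‖exp (a * t)‖ = Real.exp (a.re * t) := by
    rw [Complex.norm_exp]; simp
  rw [norm_mul, hn, Real.mul_rpow (Real.exp_pos _).le (norm_nonneg _), ← Real.exp_mul]
  have : a.re * t * (10 * σ) = 10 * σ * a.re * t := by ring
  rw [this]
  ring

theorem KID_DD_cont {v : V → ℂ} (hv : ContDiff ℝ 1 v) (a : ℂ) :
    Continuous (fun w : V => DD v w (a * w.1, 0, 0)) := by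
  unfold DD
  have h : Continuous (fun w : V => ((a * w.1, 0, 0) : V)) :=
    (continuous_const.mul continuous_fst).prodMk continuous_const
  exact (hv.continuous_fderiv one_ne_zero).clm_apply h

theorem KID_DD_supp {v : V → ℂ} (hv : HasCompactSupport v) (g : V → V) :
    HasCompactSupport (fun w : V => DD v w (g w)) := by
  apply (hv.fderiv (𝕜 := ℝ)).mono
  intro w hw hw0
  apply hw
  simp only [DD]
  rw [hw0]; rfl

theorem sKid (hDil : SDil) (hCon : SCon) : SKid := by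
  intro σ hσ φ hφ hφc
  have hr := KID_r_smooth hσ
  set v1 : V → ℂ := fun w => ((KID_r σ w * (KID_A w).re : ℝ) : ℂ) * φ w with hv1
  set v2 : V → ℂ := fun w => ((KID_r σ w * (KID_A w).im : ℝ) : ℂ) * φ w with hv2
  have hv1s : ContDiff ℝ 1 v1 := (ofRealCLM.contDiff.comp (hr.mul KID_re_smooth)).mul hφ
  have hv2s : ContDiff ℝ 1 v2 := (ofRealCLM.contDiff.comp (hr.mul KID_im_smooth)).mul hφ
  have hv1c : HasCompactSupport v1 := hφc.mul_left
  have hv2c : HasCompactSupport v2 := hφc.mul_left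
  have hQ := KID_Q_cont hσ
  have hQc : Continuous (fun w : V => ((KID_Q σ w : ℝ) : ℂ)) := continuous_ofReal.comp hQ
  have e1 := hDil 1 0 0 (10 * σ) (KID_Q σ) hQ
    (fun t w => by rw [KID_hom σ t 1 w, one_re, mul_one]) v1 hv1s hv1c
  have e2 := hDil I 0 0 0 (KID_Q σ) hQ
    (fun t w => by rw [KID_hom σ t I w, I_re]; simp) v2 hv2s hv2c
  have c1 : (10 * σ + 2 * ((1 : ℂ) + 0 + 0).re : ℝ) = 10 * σ + 2 := by simp
  have c2 : (0 + 2 * (I + 0 + 0).re : ℝ) = 0 := by simp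
  simp only [c1, c2] at e1 e2
  simp only [zero_mul, one_mul, ofReal_zero, add_zero] at e1 e2
  have i1 : Integrable (fun w : V => ((KID_Q σ w : ℝ) : ℂ) *
      (DD v1 w (w.1, 0, 0) + ((10 * σ + 2 : ℝ) : ℂ) * v1 w)) := by
    have h := KID_DD_cont hv1s 1
    simp only [one_mul] at h
    apply (hQc.mul (h.add (continuous_const.mul hv1s.continuous))).integrable_of_hasCompactSupport
    exact ((KID_DD_supp hv1c fun w => (w.1, 0, 0)).add hv1c.mul_left).mul_left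
  have i2 : Integrable (fun w : V => ((KID_Q σ w : ℝ) : ℂ) * DD v2 w (I * w.1, 0, 0)) := by
    apply (hQc.mul (KID_DD_cont hv2s I)).integrable_of_hasCompactSupport
    exact (KID_DD_supp hv2c fun w => (I * w.1, 0, 0)).mul_left
  have e3 := integral_add i1 i2
  rw [e1, e2, add_zero] at e3
  have e4 : (fun w : V => ((KID_Q σ w : ℝ) : ℂ) *
      (DD v1 w (w.1, 0, 0) + ((10 * σ + 2 : ℝ) : ℂ) * v1 w) +
      ((KID_Q σ w : ℝ) : ℂ) * DD v2 w (I * w.1, 0, 0)) = fun w =>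
      -(((10 * σ + 2 : ℝ) : ℂ) * (((P σ w : ℝ) : ℂ) * φ w)) +
      ((16 * σ + 4 : ℝ) : ℂ) * (((P σ w * hh w : ℝ) : ℂ) * φ w) +
      ((P σ w : ℝ) : ℂ) * DD φ w (w.1 * (w.1 - w.2.2) / w.2.2, 0, 0) := by
    funext w
    exact KID_point hσ hφ w
  rw [e4] at e3
  obtain ⟨hP1, hP2, -, hP4⟩ := hCon σ hσ
  have j1 : Integrable (fun w : V => ((P σ w : ℝ) : ℂ) * φ w) :=
    ((continuous_ofReal.comp hP1).mul hφ.continuous).integrable_of_hasCompactSupport hφc.mul_left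
  have j2 : Integrable (fun w : V => ((P σ w * hh w : ℝ) : ℂ) * φ w) :=
    ((continuous_ofReal.comp hP2).mul hφ.continuous).integrable_of_hasCompactSupport hφc.mul_left
  have j3 : Integrable (fun w : V =>
      ((P σ w : ℝ) : ℂ) * DD φ w (w.1 * (w.1 - w.2.2) / w.2.2, 0, 0)) := by
    have e5 : (fun w : V =>
        ((P σ w : ℝ) : ℂ) * DD φ w (w.1 * (w.1 - w.2.2) / w.2.2, 0, 0)) =
        fun w => DD φ w (((P σ w : ℝ) : ℂ) * (w.1 * (w.1 - w.2.2) / w.2.2), 0, 0) := by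
      funext w
      have h4 := KID_lin φ w (P σ w) 0 (w.1 * (w.1 - w.2.2) / w.2.2) 0
      rw [ofReal_zero, zero_mul, zero_mul, add_zero, add_zero] at h4
      exact h4
    rw [e5]
    have hc : Continuous (fun w : V =>
        DD φ w (((P σ w : ℝ) : ℂ) * (w.1 * (w.1 - w.2.2) / w.2.2), 0, 0)) := by
      unfold DD
      exact (hφ.continuous_fderiv one_ne_zero).clm_apply (hP4.prodMk continuous_const)
    exact hc.integrable_of_hasCompactSupport (KID_DD_supp hφc _)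
  have k1 : Integrable (fun w : V =>
      -(((10 * σ + 2 : ℝ) : ℂ) * (((P σ w : ℝ) : ℂ) * φ w))) := (j1.const_mul _).neg
  have k2 : Integrable (fun w : V =>
      ((16 * σ + 4 : ℝ) : ℂ) * (((P σ w * hh w : ℝ) : ℂ) * φ w)) := j2.const_mul _
  have k3 : Integrable (fun w : V => -(((10 * σ + 2 : ℝ) : ℂ) * (((P σ w : ℝ) : ℂ) * φ w)) +
      ((16 * σ + 4 : ℝ) : ℂ) * (((P σ w * hh w : ℝ) : ℂ) * φ w)) := k1.add k2
  rw [integral_add k3 j3, integral_add k1 k2, integral_neg, integral_const_mul,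
    integral_const_mul] at e3
  linear_combination -e3

end Pool.ARZ
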