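import Pool.Agent.H23.ARZ.Stmts

set_option autoImplicit false

open MeasureTheory Set Filter Topology Complex

namespace Pool.ARZ

theorem NUL_haar2 : (volume : Measure (ℂ × ℂ)).IsAddHaarMeasure :=
  inferInstanceAs (((volume : Measure ℂ).prod (volume : Measure ℂ)).IsAddHaarMeasure)

theorem NUL_haar : (volume : Measure V).IsAddHaarMeasure := by
  have := NUL_haar2
  exact inferInstanceAs (((volume : Measure ℂ).prod (volume : Measure (ℂ × ℂ))).IsAddHaarMeasure)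

theorem NUL_aux (ℓ : V →ₗ[ℝ] ℂ) (h : ∃ w, ℓ w ≠ 0) : ∀ᵐ w : V, ℓ w ≠ 0 := by
  have := NUL_haar
  have h1 : (volume : Measure V) (LinearMap.ker ℓ : Set V) = 0 := by
    apply Measure.addHaar_submodule
    intro htop
    obtain ⟨w, hw⟩ := h
    exact hw (LinearMap.mem_ker.1 (htop ▸ Submodule.mem_top))
  have h2 : {w : V | ¬ ℓ w ≠ 0} = (LinearMap.ker ℓ : Set V) := by
    ext w; simp
  rw [ae_iff, h2, h1]

theorem sNul : SNul := by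
  unfold SNul
  have hx := NUL_aux (LinearMap.fst ℝ ℂ (ℂ × ℂ)) ⟨(1, 0, 0), by simp⟩
  have hy := NUL_aux ((LinearMap.fst ℝ ℂ ℂ).comp (LinearMap.snd ℝ ℂ (ℂ × ℂ))) ⟨(0, 1, 0), by simp⟩
  have hz := NUL_aux ((LinearMap.snd ℝ ℂ ℂ).comp (LinearMap.snd ℝ ℂ (ℂ × ℂ))) ⟨(0, 0, 1), by simp⟩
  have hxz := NUL_aux (LinearMap.fst ℝ ℂ (ℂ × ℂ) -
    (LinearMap.snd ℝ ℂ ℂ).comp (LinearMap.snd ℝ ℂ (ℂ × ℂ))) ⟨(1, 0, 0), by simp⟩
  have hyz := NUL_aux ((LinearMap.fst ℝ ℂ ℂ).comp (LinearMap.snd ℝ ℂ (ℂ × ℂ)) -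
    (LinearMap.snd ℝ ℂ ℂ).comp (LinearMap.snd ℝ ℂ (ℂ × ℂ))) ⟨(0, 1, 0), by simp⟩
  filter_upwards [hx, hy, hz, hxz, hyz] with w h1 h2 h3 h4 h5
  have h1' : w.1 ≠ 0 := h1
  have h2' : w.2.1 ≠ 0 := h2
  have h3' : w.2.2 ≠ 0 := h3
  have h4' : w.1 - w.2.2 ≠ 0 := h4
  have h5' : w.2.1 - w.2.2 ≠ 0 := h5
  unfold F
  exact mul_ne_zero (mul_ne_zero (mul_ne_zero (mul_ne_zero (pow_ne_zero _ h1') (pow_ne_zero _ h4'))
    (pow_ne_zero _ h2')) h5') h3'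

end Pool.ARZ
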